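import Mathlib
import Pool.Agent.Helper86K9.QD.Auto

/-!
# The fixed ring of the order five automorphism of the q-division ring

Let `k` be a field of any characteristic, `q ∈ kˣ` not a root of unity, `D = k_q(x,y)` the division
ring of fractions of the quantum plane `x y = q y x`, and `π` the automorphism of order five
`π x = y`, `π y = x⁻¹ (y + q⁻¹)`. Then `D^π ≅ D`.

Proof. Let `a_n = π^n x`. The circulant matrix `(a_{m+i})` is invertible
(`Pool/Agent/Helper86K9/QD/Nb.lean`), so `a_0 a_1 = μ_0 a_0 + ... + μ_4 a_4` with unique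
`μ_m ∈ D^π`. Put `u = μ_3 - μ_4`, `v = μ_3 - μ_2`. Associativity of `a_4 a_0 a_2` and `a_1 a_0 a_2`
gives `u v - 1 = q (v u - 1)` and expresses `a_0 + ... + a_4` and all `μ_m` as rational functions of
`u` and `v` (`Rel.lean`, `Seven.lean`). So the five elements `a_m` span `D` over the division ring
generated by `u`, `v`, and this division ring is `D^π` (`Close.lean`, `Fix.lean`). Finally `u` and
`u v - 1` `q`-commute.
-/

set_option autoImplicit false

universe u v

namespace Pool.Agent.Results.MP_fd4dc8_al.FixedRingIso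

/-- The division ring `D` (a `k`-algebra) is the division ring of fractions of the quantum plane
`k_q[x,y]`: the elements `x`, `y` satisfy `x y = q y x`, the monomials `x^i y^j` are linearly
independent over `k` (so the subalgebra generated by `x`, `y` is the quantum plane), and every
element of `D` is a fraction `b⁻¹ a` with `a`, `b` in this subalgebra. -/
structure IsQDivisionRing (k : Type u) [Field k] (q : k) (D : Type v) [DivisionRing D]
    [Algebra k D] (x y : D) : Prop where
  rel : x * y = q • (y * x)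
  li : LinearIndependent k (fun n : ℕ × ℕ => x ^ n.1 * y ^ n.2)
  frac : ∀ d : D, ∃ a ∈ Algebra.adjoin k {x, y}, ∃ b ∈ Algebra.adjoin k {x, y},
    b ≠ 0 ∧ b * d = a

/-- The fixed ring `D^π = {d : π d = d}`. -/
def fixedRing {k : Type u} [Field k] {D : Type v} [DivisionRing D] [Algebra k D]
    (π : D ≃ₐ[k] D) : Subalgebra k D :=
  AlgHom.equalizer (π : D →ₐ[k] D) (AlgHom.id k D)

/-- Let `k` be a field, `q ∈ kˣ` not a root of unity and `D = k_q(x,y)` with `x y = q y x`. There
is exactly one automorphism `π` of the `k`-algebra `D` with `π x = y` and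
`π y = x⁻¹ (y + q⁻¹)`. It satisfies `π⁵ = 1`, and the `k`-algebras `D^π` and `D` are isomorphic.
Moreover `D^π` is the division ring of fractions of `k⟨u,v⟩` for two elements `u`, `v` of `D^π`
with `u v - 1 = q (v u - 1)`. -/
theorem result (k : Type u) [Field k] (q : k) (hq : q ≠ 0) (hroot : ∀ n : ℕ, 0 < n → q ^ n ≠ 1)
    (D : Type v) [DivisionRing D] [Algebra k D] (x y : D) (hD : IsQDivisionRing k q D x y) :
    (∃! π : D ≃ₐ[k] D, π x = y ∧ π y = x⁻¹ * (y + algebraMap k D q⁻¹)) ∧
    ∀ π : D ≃ₐ[k] D, π x = y → π y = x⁻¹ * (y + algebraMap k D q⁻¹) →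
      (∀ d, π (π (π (π (π d)))) = d) ∧
      Nonempty (fixedRing π ≃ₐ[k] D) ∧
      ∃ u ∈ fixedRing π, ∃ v ∈ fixedRing π, u * v - 1 = q • (v * u - 1) ∧
        ∀ d, d ∈ fixedRing π ↔ ∃ a ∈ Algebra.adjoin k {u, v}, ∃ b ∈ Algebra.adjoin k {u, v},
          b ≠ 0 ∧ b * d = a := by
  have h : Helper86K9.QD.IsQDiv k q D x y := ⟨hD.rel, hD.li, hD.frac⟩
  refine ⟨Helper86K9.QD.exists_pi hq hroot h, fun π h1 h2 => ?_⟩
  obtain ⟨hiso, a, b, ha, hb, hab, hall⟩ := Helper86K9.QD.main hq hroot h π h1 h2
  refine ⟨Helper86K9.QD.five hq h (π : D →ₐ[k] D) h1 h2, hiso, a, ha, b, hb, ?_, hall⟩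
  rw [hab, smul_sub, sub_smul, one_smul]
  abel

end Pool.Agent.Results.MP_fd4dc8_al.FixedRingIso
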